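import Mathlib

set_option autoImplicit false

namespace Pool.Agent.Results.MP_332034_al.Same

universe u v w

/-- Every lattice that embeds in the subspace lattice of a vector space over a division ring embeds
in the subspace lattice of a vector space over a field (the centre). -/
theorem result (L : Type u) [Lattice L] (D : Type v) [DivisionRing D] (V : Type w)
    [AddCommGroup V] [Module D V] (f : LatticeHom L (Submodule D V)) (hf : Function.Injective f) :
    ∃ (F : Type v) (_ : Field F) (W : Type w) (_ : AddCommGroup W) (_ : Module F W)
      (g : LatticeHom L (Submodule F W)), Function.Injective g := by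
  refine ⟨Subring.center D, inferInstance, V, inferInstance, inferInstance,
    ⟨⟨fun x => (f x).restrictScalars (Subring.center D), fun x y => ?_⟩, fun x y => ?_⟩,
    fun x y h => hf (Submodule.restrictScalars_injective _ _ _ h)⟩
  · rw [map_sup, Submodule.restrictScalars_sup]
  · show (f (x ⊓ y)).restrictScalars _ = (f x).restrictScalars _ ⊓ (f y).restrictScalars _
    rw [map_inf, Submodule.restrictScalars_inf]

end Pool.Agent.Results.MP_332034_al.Same
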